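import Pool.Agent.MWGI.StmtsC

/-!
# Squad MWGI, row SWF (helper14): exchange of two light letters with another common block
-/

set_option autoImplicit false

namespace Pool.Agent.MWGI.H14

open Pool.Agent.Helper14_MV Pool.Agent.Helper2_MV Pool.Agent.MVO Pool.Agent.MWL Pool.Agent.MWS
  Pool.Agent.MWH Pool.Agent.MWGI

theorem two_split {x a : ℕ} (hxa : x ≠ a) {l : List ℕ} (hx : x ∈ l) (ha : a ∈ l) :
    (∃ P w Q : List ℕ, l = P ++ x :: (w ++ a :: Q)) ∨
      ∃ P w Q : List ℕ, l = P ++ a :: (w ++ x :: Q) := by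
  obtain ⟨P, Q, e⟩ := List.append_of_mem hx
  rw [e] at ha
  rcases List.mem_append.1 ha with h | h
  · obtain ⟨P1, P2, e1⟩ := List.append_of_mem h
    right
    refine ⟨P1, P2, Q, ?_⟩
    rw [e, e1]
    simp
  · rcases List.mem_cons.1 h with h | h
    · exact absurd h.symm hxa
    · obtain ⟨Q1, Q2, e1⟩ := List.append_of_mem h
      left
      refine ⟨P, Q1, Q2, ?_⟩
      rw [e, e1]

/-- the substitution `y ↦ W` -/
def gs (y : ℕ) (W : List ℕ) : ℕ → List ℕ := fun c => if c = y then W else [c]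

theorem gs_ne {y c : ℕ} (W : List ℕ) (h : c ≠ y) : gs y W c = [c] := if_neg h

theorem fm_id {y : ℕ} (W : List ℕ) {l : List ℕ} (h : y ∉ l) : l.flatMap (gs y W) = l := by
  induction l with
  | nil => rfl
  | cons c l ih =>
    rw [List.flatMap_cons, gs_ne W (fun e => h (by rw [e]; exact List.mem_cons_self)),
      ih (fun e => h (List.mem_cons_of_mem _ e))]
    rfl

theorem fm_rep (y : ℕ) (W : List ℕ) (m : ℕ) :
    (List.replicate m y).flatMap (gs y W) = rp m W := by
  induction m with
  | zero => rfl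
  | succ m ih =>
    rw [List.replicate_succ, List.flatMap_cons, ih]
    have h1 : gs y W y = W := if_pos rfl
    rw [h1]
    show W ++ rp m W = (List.replicate (m + 1) W).flatten
    rw [List.replicate_succ, List.flatten_cons]
    rfl

theorem cnt_rp {z : ℕ} {W : List ℕ} (h : z ∉ W) (m : ℕ) : (rp m W).count z = 0 := by
  rw [List.count_eq_zero]
  intro h1
  unfold MWGR.rp at h1
  obtain ⟨l, hl, hz⟩ := List.mem_flatten.1 h1
  rw [List.eq_of_mem_replicate hl] at hz
  exact h hz

theorem cnt_rep {y z : ℕ} (h : z ≠ y) (m : ℕ) : (List.replicate m y).count z = 0 := by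
  rw [List.count_eq_zero]
  intro h1
  exact h (List.eq_of_mem_replicate h1)

/-- the part behind -/
theorem core1 (n k : ℕ) (θ : FIC) (C : ℕ → List ℕ) (hBI : BI n (RR θ)) (hOB : OkB k C) (i j a b : ℕ)
    (hjk : j ≤ k) (h : i < j) (hab : a ≠ b) (P w Q : List ℕ)
    (e1 : C j = P ++ a :: (w ++ b :: Q)) (H : List ℕ) :
    EXo n k θ H (pre C i) (suf C i (k - i)) a b 1 := by
  intro A D W hW hOk
  obtain ⟨R, R', e⟩ := suf_split (B := C) (r := k - i) h (by omega)
  rw [e] at hOk ⊢
  obtain ⟨y, hy⟩ := Infinite.exists_notMem_finset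
    (pre C i ++ (A ++ (D ++ (R ++ (C j ++ R'))))).toFinset
  rw [List.mem_toFinset] at hy
  simp only [List.mem_append, not_or] at hy
  obtain ⟨y1, y2, y3, y4, y5, y6⟩ := hy
  rw [e1] at y5
  simp only [List.mem_append, List.mem_cons, not_or] at y5
  obtain ⟨y7, ya, y8, yb, y9⟩ := y5
  have hmul : MVO.Sys.Mul w ((pre C i ++ A) ++ (List.replicate n y ++ a :: (List.replicate (n + 1) y ++
      b :: (List.replicate n y ++ ((D ++ (R ++ P)) ++ a :: (w ++ b :: (Q ++ R'))))))) := by
    intro z hz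
    have hzj : z ∈ C j := by rw [e1]; simp [hz]
    have hzy : z ≠ y := fun e => y8 (by rw [← e]; exact hz)
    by_cases hzW : z ∈ W
    · obtain ⟨-, h2, h3⟩ := hW z hzW
      have h4 := List.count_pos_iff.2 h2
      have h5 := List.count_pos_iff.2 h3
      simp only [List.count_append, List.count_cons]
      omega
    · have h1 := hOk.mu z (by simp [hzj]) (hOB.ok j hjk z hzj)
      rw [e1] at h1
      simp only [List.count_append, List.count_cons, cnt_rp hzW] at h1
      simp only [List.count_append, List.count_cons, cnt_rep hzy]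
      omega
  have hfe := hBI.fe (pre C i ++ A) (D ++ (R ++ P)) w (Q ++ R') y a b ya yb hab hmul
  have hs := RR.sub (gs y W) hfe
  simp only [List.flatMap_append, List.flatMap_cons, fm_rep, fm_id W y1, fm_id W y2, fm_id W y3,
    fm_id W y4, fm_id W y6, fm_id W y7, fm_id W y8, fm_id W y9, gs_ne W (Ne.symm ya),
    gs_ne W (Ne.symm yb)] at hs
  rw [e1]
  simpa [MWGR.Wd] using hs

/-- the part before -/
theorem core2 (n k : ℕ) (θ : FIC) (C : ℕ → List ℕ) (hBI : BI n (RR θ)) (hOB : OkB k C) (i j a b : ℕ)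
    (hjk : j ≤ k) (h : j < i) (hab : a ≠ b) (P w Q : List ℕ)
    (e1 : C j = P ++ a :: (w ++ b :: Q)) (H : List ℕ) :
    EXo n k θ H (pre C i) (suf C i (k - i)) a b 1 := by
  intro A D W hW hOk
  obtain ⟨R, e⟩ := pre_split (B := C) h
  rw [e] at hOk ⊢
  obtain ⟨y, hy⟩ := Infinite.exists_notMem_finset
    (suf C i (k - i) ++ (A ++ (D ++ (R ++ (C j ++ pre C j))))).toFinset
  rw [List.mem_toFinset] at hy
  simp only [List.mem_append, not_or] at hy
  obtain ⟨y1, y2, y3, y4, y5, y6⟩ := hy
  rw [e1] at y5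
  simp only [List.mem_append, List.mem_cons, not_or] at y5
  obtain ⟨y7, ya, y8, yb, y9⟩ := y5
  have hmul : MVO.Sys.Mul w ((pre C j ++ P) ++ a :: (w ++ b :: ((Q ++ (R ++ A)) ++
      (List.replicate n y ++ a :: (List.replicate (n + 1) y ++
      b :: (List.replicate n y ++ (D ++ suf C i (k - i)))))))) := by
    intro z hz
    have hzj : z ∈ C j := by rw [e1]; simp [hz]
    have hzy : z ≠ y := fun e => y8 (by rw [← e]; exact hz)
    by_cases hzW : z ∈ W
    · obtain ⟨-, h2, h3⟩ := hW z hzW
      have h4 := List.count_pos_iff.2 h2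
      have h5 := List.count_pos_iff.2 h3
      simp only [List.count_append, List.count_cons]
      omega
    · have h1 := hOk.mu z (by simp [hzj]) (hOB.ok j hjk z hzj)
      rw [e1] at h1
      simp only [List.count_append, List.count_cons, cnt_rp hzW] at h1
      simp only [List.count_append, List.count_cons, cnt_rep hzy]
      omega
  have hfe := hBI.fe' (D ++ suf C i (k - i)) (Q ++ (R ++ A)) w (pre C j ++ P) y a b ya yb hab hmul
  have hs := RR.sub (gs y W) hfe
  simp only [List.flatMap_append, List.flatMap_cons, fm_rep, fm_id W y1, fm_id W y2, fm_id W y3,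
    fm_id W y4, fm_id W y6, fm_id W y7, fm_id W y8, fm_id W y9, gs_ne W (Ne.symm ya),
    gs_ne W (Ne.symm yb)] at hs
  rw [e1]
  simpa [MWGR.Wd] using hs

/-- row SWF -/
theorem swf : SwfStmt := by
  intro n k θ C hBI hOB i j a b hik hjk hij hab ha hb H _ _
  rcases two_split hab ha hb with ⟨P, w, Q, e1⟩ | ⟨P, w, Q, e1⟩
  · left
    rcases Nat.lt_or_gt_of_ne hij with h | h
    · exact core1 n k θ C hBI hOB i j a b hjk h hab P w Q e1 H
    · exact core2 n k θ C hBI hOB i j a b hjk h hab P w Q e1 H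
  · right
    rcases Nat.lt_or_gt_of_ne hij with h | h
    · exact core1 n k θ C hBI hOB i j b a hjk h hab.symm P w Q e1 H
    · exact core2 n k θ C hBI hOB i j b a hjk h hab.symm P w Q e1 H

end Pool.Agent.MWGI.H14
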